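import Pool.Agent.Helper67.BT.Stmts

open Finset MeasureTheory

namespace Pool.Agent.Helper67.BT

/-- coercivity -/
lemma sde_coer {n k : ℕ} (a : Fin n → E k) (ha : Sp a) :
    ∃ c0 : ℝ, 0 < c0 ∧ ∀ y : E k, c0 * ‖y‖ ^ 2 ≤ ∑ i, inner ℝ (a i) y ^ 2 := by
  let f : E k →ₗ[ℝ] EuclideanSpace ℝ (Fin n) :=
    { toFun := fun y => WithLp.toLp 2 fun i => inner ℝ (a i) y
      map_add' := fun x y => by
        ext i; simp [inner_add_right]
      map_smul' := fun r x => by
        ext i; simp [inner_smul_right] }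
  have hker : LinearMap.ker f = ⊥ := by
    rw [LinearMap.ker_eq_bot']
    intro y hy
    apply ha
    intro i
    have := congrArg (fun v : EuclideanSpace ℝ (Fin n) => v i) hy
    simpa [f] using this
  obtain ⟨K, hK0, hK⟩ := f.exists_antilipschitzWith hker
  have hK0' : (0 : ℝ) < K := by exact_mod_cast hK0
  refine ⟨1 / (K : ℝ) ^ 2, by positivity, fun y => ?_⟩
  have h1 : ‖y‖ ≤ K * ‖f y‖ := by
    have := hK.le_mul_dist y 0
    simpa [dist_eq_norm] using this
  have h2 : ‖f y‖ ^ 2 = ∑ i, inner ℝ (a i) y ^ 2 := by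
    rw [EuclideanSpace.norm_sq_eq]
    apply Finset.sum_congr rfl
    intro i _
    simp [f]
  rw [← h2]
  have h3 : ‖y‖ ^ 2 ≤ (K * ‖f y‖) ^ 2 := pow_le_pow_left₀ (norm_nonneg _) h1 2
  rw [div_mul_eq_mul_div, one_mul, div_le_iff₀ (by positivity)]
  rw [mul_pow] at h3
  linarith

lemma sde_rpow {p : ℝ} (hp : 2 ≤ p) (s : ℝ) : s ^ 2 - 1 ≤ |s| ^ p := by
  by_cases h : 1 ≤ |s|
  · have h1 : |s| ^ (2 : ℝ) ≤ |s| ^ p := Real.rpow_le_rpow_of_exponent_le h hp
    have h2 : |s| ^ (2 : ℝ) = s ^ 2 := by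
      rw [Real.rpow_two, sq_abs]
    linarith
  · push Not at h
    have h1 : 0 ≤ |s| ^ p := Real.rpow_nonneg (abs_nonneg _) _
    have h2 : s ^ 2 ≤ 1 := by
      rw [← sq_abs]
      exact pow_le_one₀ (abs_nonneg _) h.le
    linarith

/-- upper bound on exponents -/
lemma sde_exp {n : ℕ} (τ v : Fin n → ℝ) (T t : ℝ) (ht : |t| ≤ T) (i : Fin n) :
    Real.exp (-(∑ i, (|τ i| + T * |v i|))) ≤ Real.exp (τ i + t * v i) ∧
    Real.exp (τ i + t * v i) ≤ Real.exp (∑ i, (|τ i| + T * |v i|)) := by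
  have hT : 0 ≤ T := (abs_nonneg _).trans ht
  have h1 : |τ i + t * v i| ≤ |τ i| + T * |v i| := by
    refine (abs_add_le _ _).trans ?_
    rw [abs_mul]
    have := mul_le_mul_of_nonneg_right ht (abs_nonneg (v i))
    linarith
  have h2 : |τ i| + T * |v i| ≤ ∑ i, (|τ i| + T * |v i|) :=
    Finset.single_le_sum (f := fun i => |τ i| + T * |v i|)
      (fun j _ => by positivity) (Finset.mem_univ i)
  have h3 := abs_le.1 (h1.trans h2)
  exact ⟨Real.exp_le_exp.2 h3.1, Real.exp_le_exp.2 h3.2⟩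

lemma sde_wt {n k : ℕ} (a : Fin n → E k) (p : ℝ) (τ v : Fin n → ℝ) (hp : 2 ≤ p) (ha : Sp a)
    (T : ℝ) : ∃ K b : ℝ, 0 < b ∧ 0 < K ∧ ∀ t : ℝ, |t| ≤ T → ∀ y : E k,
      wt a p τ v t y ≤ K * Real.exp (-b * ‖y‖ ^ 2) := by
  obtain ⟨c0, hc0, hc⟩ := sde_coer a ha
  set m := Real.exp (-(∑ i, (|τ i| + T * |v i|))) with hm
  have hm0 : 0 < m := Real.exp_pos _
  refine ⟨Real.exp (m * n), m * c0, by positivity, Real.exp_pos _, fun t ht y => ?_⟩
  unfold wt
  rw [← Real.exp_add]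
  apply Real.exp_le_exp.2
  have h1 : m * (c0 * ‖y‖ ^ 2 - n) ≤ ∑ i, Real.exp (τ i + t * v i) * |inner ℝ (a i) y| ^ p := by
    calc m * (c0 * ‖y‖ ^ 2 - n) ≤ m * (∑ i, (inner ℝ (a i) y ^ 2 - 1)) := by
          apply mul_le_mul_of_nonneg_left _ hm0.le
          rw [Finset.sum_sub_distrib]
          simp only [Finset.sum_const, Finset.card_univ, Fintype.card_fin, nsmul_eq_mul, mul_one]
          linarith [hc y]
      _ ≤ m * ∑ i, |inner ℝ (a i) y| ^ p := by
          apply mul_le_mul_of_nonneg_left _ hm0.le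
          exact Finset.sum_le_sum fun i _ => sde_rpow hp _
      _ ≤ _ := by
          rw [Finset.mul_sum]
          apply Finset.sum_le_sum
          intro i _
          exact mul_le_mul_of_nonneg_right (sde_exp τ v T t ht i).1
            (Real.rpow_nonneg (abs_nonneg _) _)
  nlinarith

lemma sde_PG_g {k : ℕ} (a : E k) {p : ℝ} (hp : 2 ≤ p) : PG (fun y : E k => |inner ℝ a y| ^ p) :=
  PG_rpow (PG_inner a) (by linarith)

lemma sde_PG_W {n k : ℕ} (a : Fin n → E k) (p : ℝ) (τ v : Fin n → ℝ) (hp : 2 ≤ p) (t : ℝ) :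
    PG (fun y : E k => ∑ i, Real.exp (τ i + t * v i) * |inner ℝ (a i) y| ^ p) :=
  PG_sum _ fun i _ => PG_const_mul _ (sde_PG_g (a i) hp)

lemma sde_PG_X {n k : ℕ} (a : Fin n → E k) (p : ℝ) (τ v : Fin n → ℝ) (hp : 2 ≤ p) (j : ℕ)
    (t : ℝ) : PG (fun y : E k => Xt a p τ v j t y) :=
  PG_sum _ fun i _ => PG_const_mul _ (PG_const_mul _ (sde_PG_g (a i) hp))

lemma sde_wt_cont {n k : ℕ} (a : Fin n → E k) (p : ℝ) (τ v : Fin n → ℝ) (hp : 2 ≤ p) (t : ℝ) :
    Continuous (fun y : E k => wt a p τ v t y) :=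
  Real.continuous_exp.comp (sde_PG_W a p τ v hp t).1.neg

/-- the uniform bound on `Xt` -/
lemma sde_X {n k : ℕ} (a : Fin n → E k) (p : ℝ) (τ v : Fin n → ℝ) (hp : 2 ≤ p) (T : ℝ) (j : ℕ) :
    ∃ G : E k → ℝ, PG G ∧ (∀ y, 0 ≤ G y) ∧ ∀ t : ℝ, |t| ≤ T → ∀ y : E k,
      |Xt a p τ v j t y| ≤ G y := by
  set M := Real.exp (∑ i, (|τ i| + T * |v i|)) with hM
  refine ⟨fun y => ∑ i, |v i| ^ j * (M * |inner ℝ (a i) y| ^ p),
    PG_sum _ fun i _ => PG_const_mul _ (PG_const_mul _ (sde_PG_g (a i) hp)),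
    fun y => Finset.sum_nonneg fun i _ => ?_, fun t ht y => ?_⟩
  · have := Real.rpow_nonneg (abs_nonneg (inner ℝ (a i) y)) p
    have := Real.exp_pos (∑ i, (|τ i| + T * |v i|))
    positivity
  · unfold Xt
    refine (Finset.abs_sum_le_sum_abs _ _).trans (Finset.sum_le_sum fun i _ => ?_)
    have h1 := Real.rpow_nonneg (abs_nonneg (inner ℝ (a i) y)) p
    rw [abs_mul, abs_pow, abs_mul, abs_of_pos (Real.exp_pos _), abs_of_nonneg h1]
    exact mul_le_mul_of_nonneg_left (mul_le_mul_of_nonneg_right (sde_exp τ v T t ht i).2 h1)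
      (by positivity)

lemma sde_int {k : ℕ} {F : E k → ℝ} (hF : PG F) {b : ℝ} (hb : 0 < b) :
    Integrable (fun y : E k => F y * Real.exp (-b * ‖y‖ ^ 2)) := by
  obtain ⟨hc, C, N, hC, h⟩ := hF
  refine Integrable.mono' ((pow_gauss_int (k := k) N hb).const_mul C) ?_
    (Filter.Eventually.of_forall fun x => ?_)
  · exact Continuous.aestronglyMeasurable (by fun_prop)
  · rw [Real.norm_eq_abs, abs_mul, abs_of_pos (Real.exp_pos _), ← mul_assoc]
    exact mul_le_mul_of_nonneg_right (h x) (Real.exp_pos _).le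

lemma sde_intw {n k : ℕ} (a : Fin n → E k) (p : ℝ) (τ v : Fin n → ℝ) (hp : 2 ≤ p) (ha : Sp a)
    (t : ℝ) {F : E k → ℝ} (hF : PG F) : Integrable (fun y : E k => F y * wt a p τ v t y) := by
  obtain ⟨K, b, hb, hK, h⟩ := sde_wt a p τ v hp ha |t|
  refine Integrable.mono' ((sde_int (PG_abs hF) hb).const_mul K) ?_
    (Filter.Eventually.of_forall fun y => ?_)
  · exact (hF.1.mul (sde_wt_cont a p τ v hp t)).aestronglyMeasurable
  · have h1 : 0 ≤ wt a p τ v t y := (Real.exp_pos _).le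
    rw [Real.norm_eq_abs, abs_mul, abs_of_nonneg h1]
    calc |F y| * wt a p τ v t y ≤ |F y| * (K * Real.exp (-b * ‖y‖ ^ 2)) :=
          mul_le_mul_of_nonneg_left (h t le_rfl y) (abs_nonneg _)
      _ = K * (|F y| * Real.exp (-b * ‖y‖ ^ 2)) := by ring

lemma sde_derX {n k : ℕ} (a : Fin n → E k) (p : ℝ) (τ v : Fin n → ℝ) (j : ℕ) (t : ℝ) (y : E k) :
    HasDerivAt (fun t => Xt a p τ v j t y) (Xt a p τ v (j + 1) t y) t := by
  unfold Xt
  have h : ∀ i ∈ (Finset.univ : Finset (Fin n)),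
      HasDerivAt (fun t => v i ^ j * (Real.exp (τ i + t * v i) * |inner ℝ (a i) y| ^ p))
        (v i ^ (j + 1) * (Real.exp (τ i + t * v i) * |inner ℝ (a i) y| ^ p)) t := by
    intro i _
    have h1 : HasDerivAt (fun t : ℝ => τ i + t * v i) (v i) t := by
      simpa using ((hasDerivAt_id t).mul_const (v i)).const_add (τ i)
    have h2 := ((h1.exp.mul_const (|inner ℝ (a i) y| ^ p)).const_mul (v i ^ j))
    refine h2.congr_deriv ?_
    rw [pow_succ]; ring
  exact HasDerivAt.fun_sum h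

lemma sde_X0 {n k : ℕ} (a : Fin n → E k) (p : ℝ) (τ v : Fin n → ℝ) (t : ℝ) (y : E k) :
    wt a p τ v t y = Real.exp (-(Xt a p τ v 0 t y)) := by
  unfold wt Xt
  simp

lemma sde_derw {n k : ℕ} (a : Fin n → E k) (p : ℝ) (τ v : Fin n → ℝ) (t : ℝ) (y : E k) :
    HasDerivAt (fun t => wt a p τ v t y) (-(Xt a p τ v 1 t y * wt a p τ v t y)) t := by
  have h1 := (sde_derX a p τ v 0 t y).neg.exp
  have h2 : (fun t => wt a p τ v t y) = fun t => Real.exp (-(Xt a p τ v 0 t y)) := by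
    funext t; exact sde_X0 a p τ v t y
  rw [h2]
  refine h1.congr_deriv ?_
  simp only [Pi.neg_apply, zero_add]
  rw [sde_X0]; ring

theorem st_SDE : ST_SDE := by
  intro n k a p τ v hp ha
  have hw : ∀ t, Integrable (wt a p τ v t) := by
    intro t
    have := sde_intw a p τ v hp ha t (PG_const (k := k) 1)
    simpa only [one_mul] using this
  have hX : ∀ j t, Integrable (fun y => Xt a p τ v j t y * wt a p τ v t y) := fun j t =>
    sde_intw a p τ v hp ha t (sde_PG_X a p τ v hp j t)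
  have hX2 : ∀ t, Integrable (fun y => Xt a p τ v 1 t y ^ 2 * wt a p τ v t y) := fun t =>
    sde_intw a p τ v hp ha t (PG_pow (sde_PG_X a p τ v hp 1 t) 2)
  refine ⟨hw, hX2, hX 2, fun t => ?_, fun t => ?_⟩
  · obtain ⟨K, b, hb, hK, hwt⟩ := sde_wt a p τ v hp ha (|t| + 1)
    obtain ⟨G, hG, hG0, hGX⟩ := sde_X a p τ v hp (|t| + 1) 1
    have hs : Metric.closedBall t 1 ∈ nhds t := Metric.closedBall_mem_nhds t one_pos
    have hst : ∀ x ∈ Metric.closedBall t 1, |x| ≤ |t| + 1 := by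
      intro x hx
      rw [Metric.mem_closedBall, Real.dist_eq] at hx
      calc |x| = |t + (x - t)| := by ring_nf
        _ ≤ |t| + |x - t| := abs_add_le _ _
        _ ≤ |t| + 1 := by linarith
    have key := (hasDerivAt_integral_of_dominated_loc_of_deriv_le (μ := volume)
      (F := fun t y => wt a p τ v t y) (F' := fun t y => -(Xt a p τ v 1 t y * wt a p τ v t y))
      (x₀ := t) (s := Metric.closedBall t 1)
      (bound := fun y => K * (G y * Real.exp (-b * ‖y‖ ^ 2))) hs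
      (Filter.Eventually.of_forall fun x => (sde_wt_cont a p τ v hp x).aestronglyMeasurable)
      (hw t) ((hX 1 t).neg).aestronglyMeasurable
      (Filter.Eventually.of_forall fun y x hx => ?_)
      ((sde_int hG hb).const_mul K)
      (Filter.Eventually.of_forall fun y x _ => sde_derw a p τ v x y)).2
    · rw [integral_neg] at key
      exact key
    · have h1 : 0 ≤ wt a p τ v x y := (Real.exp_pos _).le
      rw [Real.norm_eq_abs, abs_neg, abs_mul, abs_of_nonneg h1]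
      calc |Xt a p τ v 1 x y| * wt a p τ v x y ≤ G y * (K * Real.exp (-b * ‖y‖ ^ 2)) :=
            mul_le_mul (hGX x (hst x hx) y) (hwt x (hst x hx) y) h1 (hG0 y)
        _ = K * (G y * Real.exp (-b * ‖y‖ ^ 2)) := by ring
  · obtain ⟨K, b, hb, hK, hwt⟩ := sde_wt a p τ v hp ha (|t| + 1)
    obtain ⟨G, hG, hG0, hGX⟩ := sde_X a p τ v hp (|t| + 1) 1
    obtain ⟨H, hH, hH0, hHX⟩ := sde_X a p τ v hp (|t| + 1) 2
    have hs : Metric.closedBall t 1 ∈ nhds t := Metric.closedBall_mem_nhds t one_pos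
    have hst : ∀ x ∈ Metric.closedBall t 1, |x| ≤ |t| + 1 := by
      intro x hx
      rw [Metric.mem_closedBall, Real.dist_eq] at hx
      calc |x| = |t + (x - t)| := by ring_nf
        _ ≤ |t| + |x - t| := abs_add_le _ _
        _ ≤ |t| + 1 := by linarith
    have hder : ∀ x y, HasDerivAt (fun t => Xt a p τ v 1 t y * wt a p τ v t y)
        ((Xt a p τ v 2 x y - Xt a p τ v 1 x y ^ 2) * wt a p τ v x y) x := by
      intro x y
      refine ((sde_derX a p τ v 1 x y).mul (sde_derw a p τ v x y)).congr_deriv ?_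
      ring
    refine (hasDerivAt_integral_of_dominated_loc_of_deriv_le (μ := volume)
      (F := fun t y => Xt a p τ v 1 t y * wt a p τ v t y)
      (F' := fun t y => (Xt a p τ v 2 t y - Xt a p τ v 1 t y ^ 2) * wt a p τ v t y)
      (x₀ := t) (s := Metric.closedBall t 1)
      (bound := fun y => K * ((H y + G y ^ 2) * Real.exp (-b * ‖y‖ ^ 2))) hs
      (Filter.Eventually.of_forall fun x => (hX 1 x).aestronglyMeasurable)
      (hX 1 t) ?_
      (Filter.Eventually.of_forall fun y x hx => ?_)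
      ((sde_int (PG_add hH (PG_pow hG 2)) hb).const_mul K)
      (Filter.Eventually.of_forall fun y x _ => hder x y)).2
    · exact (sde_intw a p τ v hp ha t (PG_sub (sde_PG_X a p τ v hp 2 t)
        (PG_pow (sde_PG_X a p τ v hp 1 t) 2))).aestronglyMeasurable
    · have h1 : 0 ≤ wt a p τ v x y := (Real.exp_pos _).le
      rw [Real.norm_eq_abs, abs_mul, abs_of_nonneg h1]
      have h2 : |Xt a p τ v 2 x y - Xt a p τ v 1 x y ^ 2| ≤ H y + G y ^ 2 := by
        refine (abs_sub _ _).trans ?_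
        rw [abs_pow]
        have h3 := hHX x (hst x hx) y
        have h4 := pow_le_pow_left₀ (abs_nonneg _) (hGX x (hst x hx) y) 2
        linarith
      calc |Xt a p τ v 2 x y - Xt a p τ v 1 x y ^ 2| * wt a p τ v x y
            ≤ (H y + G y ^ 2) * (K * Real.exp (-b * ‖y‖ ^ 2)) :=
            mul_le_mul h2 (hwt x (hst x hx) y) h1 (by have := hH0 y; positivity)
        _ = K * ((H y + G y ^ 2) * Real.exp (-b * ‖y‖ ^ 2)) := by ring

end Pool.Agent.Helper67.BT
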